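import Pool.Agent.Helper67.NO.St1

/-!
# Project NO (MP_26be5b_ag), module CRI: critical chains are minimal
-/

set_option autoImplicit false

namespace Pool.Agent.Helper96.NO

open Matrix
open scoped Matrix.Norms.Frobenius ContDiff Topology
open Pool.Agent.Helper67.NO

theorem conj_of_mul_eq {m : Type} [Fintype m] [DecidableEq m] {g a a' : Matrix m m ℂ}
    (hg : IsUnit g) (h : g * a = a' * g) : g * a * g⁻¹ = a' := by
  have hdet : IsUnit g.det := (Matrix.isUnit_iff_isUnit_det g).1 hg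
  rw [h, Matrix.mul_assoc, Matrix.mul_nonsing_inv g hdet, Matrix.mul_one]

theorem pCRI (h1 : StORB) (h2 : StKNI) (h3 : StBDA) : StCRI := by
  intro ι κ _ _ _ _ lev A a b hRT hCh hCr
  have hmem : nsq a b ∈ {r : ℝ | ∃ a b : Matrix (ι ⊕ κ) (ι ⊕ κ) ℂ, Ch lev A a b ∧ r = nsq a b} :=
    ⟨a, b, hCh, rfl⟩
  have hlow : ∀ r ∈ {r : ℝ | ∃ a b : Matrix (ι ⊕ κ) (ι ⊕ κ) ℂ, Ch lev A a b ∧ r = nsq a b},
      nsq a b ≤ r := by
    rintro r ⟨a', b', hCh', rfl⟩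
    obtain ⟨u, hu, -, ha, hb⟩ := h1 ι κ lev A a b a' b' hRT hCh hCh'
    obtain ⟨-, -, -, -, -, -, h4⟩ := h3 ι κ
    have hU : IsUnit (bd (1 : Matrix ι ι ℂ) u) := (h4 1 u isUnit_one hu).1
    have h5 := h2 ι κ a b u hCr hu
    rwa [conj_of_mul_eq hU ha, conj_of_mul_eq hU hb] at h5
  exact IsLeast.csInf_eq ⟨hmem, hlow⟩

end Pool.Agent.Helper96.NO
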